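import Mathlib

set_option autoImplicit false

open Set Topology Filter

namespace Pool.Agent.Y568.CQ

/-- the map of ultrafilters induced by a surjection is a continuous surjection -/
theorem map_cont_surj {D K : Type} (f : D → K) (hf : Function.Surjective f) :
    Continuous (Ultrafilter.map f) ∧ Function.Surjective (Ultrafilter.map f) := by
  constructor
  · refine continuous_generateFrom_iff.2 ?_
    rintro s ⟨b, rfl⟩
    have h : Ultrafilter.map f ⁻¹' {u : Ultrafilter K | b ∈ u} =
        {u : Ultrafilter D | f ⁻¹' b ∈ u} := by
      ext u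
      simp [Ultrafilter.mem_map]
    rw [h]
    exact ultrafilter_isOpen_basic _
  · intro u
    obtain ⟨g, hg⟩ := hf.hasRightInverse
    refine ⟨Ultrafilter.map g u, ?_⟩
    rw [Ultrafilter.map_map]
    have : f ∘ g = id := by
      funext x
      exact hg x
    rw [this]
    exact Ultrafilter.map_id _

section

variable {Y : Type} [TopologicalSpace Y] {D : Type} (U : D → Set Y)

/-- the closure of the union of the sets with indices in `S` -/
def C (S : Set D) : Set Y := closure (⋃ d ∈ S, U d)

theorem C_mono {S T : Set D} (h : S ⊆ T) : C U S ⊆ C U T :=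
  closure_mono (biUnion_subset_biUnion_left h)

theorem C_union (S T : Set D) : C U (S ∪ T) = C U S ∪ C U T := by
  unfold C
  rw [biUnion_union, closure_union]

variable {U}

theorem C_disj [ExtremallyDisconnected Y] (hU : ∀ d, IsOpen (U d))
    (hd : Pairwise fun i j => Disjoint (U i) (U j)) {S T : Set D} (h : Disjoint S T) :
    Disjoint (C U S) (C U T) := by
  apply ExtremallyDisconnected.disjoint_closure_of_disjoint_isOpen
  · rw [disjoint_iUnion₂_left]
    intro i hi
    rw [disjoint_iUnion₂_right]
    intro j hj
    apply hd
    rintro rfl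
    exact disjoint_left.1 h hi hj
  · exact isOpen_biUnion fun d _ => hU d
  · exact isOpen_biUnion fun d _ => hU d

theorem C_open [ExtremallyDisconnected Y] (hU : ∀ d, IsOpen (U d)) (S : Set D) :
    IsOpen (C U S) :=
  ExtremallyDisconnected.open_closure _ (isOpen_biUnion fun d _ => hU d)

theorem onto_dense [CompactSpace Y] [ExtremallyDisconnected Y] (hU : ∀ d, IsOpen (U d))
    (hne : ∀ d, (U d).Nonempty) (hd : Pairwise fun i j => Disjoint (U i) (U j))
    (hdense : Dense (⋃ d, U d)) :
    ∃ π : Y → Ultrafilter D, Continuous π ∧ Function.Surjective π := by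
  have huniv : ∀ y, y ∈ C U univ := by
    intro y
    unfold C
    rw [biUnion_univ]
    exact hdense y
  have hinter : ∀ y S T, y ∈ C U S → y ∈ C U T → y ∈ C U (S ∩ T) := by
    intro y S T h1 h2
    have h3 : S = (S ∩ T) ∪ (S \ T) := by
      ext x
      by_cases hx : x ∈ T <;> simp [hx]
    rw [h3, C_union] at h1
    rcases h1 with h1 | h1
    · exact h1
    · exact absurd h2 (disjoint_left.1 (C_disj hU hd disjoint_sdiff_left) h1)
  let F : Y → Filter D := fun y =>
    { sets := {S | y ∈ C U S}
      univ_sets := huniv y
      sets_of_superset := fun h1 h2 => C_mono U h2 h1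
      inter_sets := fun h1 h2 => hinter y _ _ h1 h2 }
  have hF : ∀ y S, S ∈ F y ↔ y ∈ C U S := fun y S => Iff.rfl
  let π : Y → Ultrafilter D := fun y => Ultrafilter.ofComplNotMemIff (F y) (by
    intro S
    rw [hF, hF]
    constructor
    · intro h
      have h1 := huniv y
      rw [← union_compl_self S, C_union] at h1
      exact h1.resolve_right h
    · intro h h2
      exact disjoint_left.1 (C_disj hU hd (disjoint_compl_right (a := S))) h h2)
  have hπ : ∀ y S, S ∈ π y ↔ y ∈ C U S := fun y S => Iff.rfl
  have hc : Continuous π := by
    refine continuous_generateFrom_iff.2 ?_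
    rintro s ⟨b, rfl⟩
    exact C_open hU b
  refine ⟨π, hc, ?_⟩
  have h1 : range (pure : D → Ultrafilter D) ⊆ range π := by
    rintro _ ⟨d, rfl⟩
    obtain ⟨y, hy⟩ := hne d
    refine ⟨y, ?_⟩
    ext S
    rw [hπ, Ultrafilter.mem_pure]
    constructor
    · intro h
      by_contra hdS
      have h2 : Disjoint (C U {d}) (C U S) := C_disj hU hd (by
        rw [disjoint_singleton_left]; exact hdS)
      refine disjoint_left.1 h2 ?_ h
      apply subset_closure
      simp only [mem_singleton_iff, iUnion_iUnion_eq_left]
      exact hy
    · intro h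
      apply subset_closure
      simp only [mem_iUnion]
      exact ⟨d, h, hy⟩
  have h2 : IsClosed (range π) := (isCompact_range hc).isClosed
  intro u
  have h3 : u ∈ closure (range (pure : D → Ultrafilter D)) := denseRange_pure u
  exact h2.closure_subset_iff.2 h1 h3

/-- a compact extremally disconnected space with a disjoint family of nonempty open sets indexed
by `D` can be mapped onto the Stone-Cech compactification of the discrete space `D` -/
theorem onto [CompactSpace Y] [ExtremallyDisconnected Y] (hU : ∀ d, IsOpen (U d))
    (hne : ∀ d, (U d).Nonempty) (hd : Pairwise fun i j => Disjoint (U i) (U j)) [Nonempty D] :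
    ∃ π : Y → Ultrafilter D, Continuous π ∧ Function.Surjective π := by
  classical
  obtain ⟨d₀⟩ := (inferInstance : Nonempty D)
  let O : Set Y := (closure (⋃ d, U d))ᶜ
  let U' : D → Set Y := fun d => if d = d₀ then U d ∪ O else U d
  have hO : ∀ d, Disjoint O (U d) := fun d =>
    disjoint_left.2 fun y h1 h2 => h1 (subset_closure (mem_iUnion.2 ⟨d, h2⟩))
  have hsub : ∀ d, U d ⊆ U' d := by
    intro d
    simp only [U']
    split_ifs
    · exact subset_union_left
    · exact subset_rfl
  refine onto_dense (U := U') ?_ ?_ ?_ ?_
  · intro d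
    simp only [U']
    split_ifs
    · exact (hU d).union isClosed_closure.isOpen_compl
    · exact hU d
  · intro d
    exact (hne d).mono (hsub d)
  · intro i j hij
    simp only [U']
    split_ifs with h1 h2 h2
    · exact absurd (h1.trans h2.symm) hij
    · exact disjoint_union_left.2 ⟨hd hij, hO j⟩
    · exact disjoint_union_right.2 ⟨hd hij, (hO i).symm⟩
    · exact hd hij
  · intro y
    by_cases hy : y ∈ closure (⋃ d, U d)
    · exact closure_mono (iUnion_mono hsub) hy
    · apply subset_closure
      rw [mem_iUnion]
      refine ⟨d₀, ?_⟩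
      simp only [U', if_true]
      exact Or.inr hy

end

end Pool.Agent.Y568.CQ
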